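import Pool.Agent.W676.Ghost.Main

/-!
If a uniformly locally finite metric space `Y` coarsely embeds into a uniformly locally finite
metric space `X` all of whose sparse subspaces yield only compact ghost projections, then all
sparse subspaces of `Y` yield only compact ghost projections.

The proof uses a selection form of the Marcus-Spielman-Srivastava theorem, proved in
`Pool.Agent.W676.KS`.
-/

namespace Pool.Agent.Results.MP_7884fa_an.GhostCoarseEmbedding

open Pool.Agent.W676.Ghost

theorem result (X Y : Type) [MetricSpace X] [MetricSpace Y] (_hX : ULF X) (hY : ULF Y)
    (hXY : ∃ f : Y → X, CoarseEmb f) (h : OnlyCompactGhosts X) : OnlyCompactGhosts Y := by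
  obtain ⟨f, hf⟩ := hXY
  exact main hY hf h

end Pool.Agent.Results.MP_7884fa_an.GhostCoarseEmbedding
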